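import Mathlib

namespace Pool.Agent.H11.Rho

/-- `S` is (out-)dominating: every vertex outside `S` has an in-neighbour in `S`. -/
def IsDominating {V : Type} (D : Digraph V) (S : Finset V) : Prop :=
  ∀ v, v ∉ S → ∃ u ∈ S, D.Adj u v

/-- The domination number. -/
noncomputable def domNum {V : Type} (D : Digraph V) : ℕ :=
  sInf {k | ∃ S : Finset V, IsDominating D S ∧ S.card = k}

/-- The reverse digraph. -/
def reverse {V : Type} (D : Digraph V) : Digraph V := ⟨fun u v => D.Adj v u⟩

/-- `D` is loopless, `r`-regular and strongly connected. -/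
def InClass {V : Type} (r : ℕ) (D : Digraph V) : Prop :=
  (∀ v, ¬ D.Adj v v) ∧ (∀ v, {u | D.Adj u v}.ncard = r) ∧ (∀ v, {u | D.Adj v u}.ncard = r) ∧
    ∀ u v, Relation.ReflTransGen D.Adj u v

/-- `ρ_r`: the supremum of `γ(D⁻) / γ(D)` over finite nonempty digraphs `D` of the class. -/
noncomputable def rho (r : ℕ) : ℝ :=
  sSup {x : ℝ | ∃ (V : Type) (_ : Fintype V) (_ : Nonempty V) (D : Digraph V),
    InClass r D ∧ x = (domNum (reverse D) : ℝ) / (domNum D : ℝ)}

end Pool.Agent.H11.Rho
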