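import Mathlib
import Pool.Agent.H11.Rho.Defs

namespace Pool.Agent.H11.Rho

open Finset

variable {V : Type} [Fintype V]

lemma exists_min (D : Digraph V) : ∃ S : Finset V, IsDominating D S ∧ S.card = domNum D :=
  Nat.sInf_mem (s := {k | ∃ S : Finset V, IsDominating D S ∧ S.card = k})
    ⟨_, Finset.univ, fun v hv => absurd (Finset.mem_univ v) hv, rfl⟩

omit [Fintype V] in
lemma domNum_le (D : Digraph V) (S : Finset V) (h : IsDominating D S) : domNum D ≤ S.card :=
  Nat.sInf_le ⟨S, h, rfl⟩

lemma domNum_pos [Nonempty V] (D : Digraph V) : 0 < domNum D := by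
  obtain ⟨S, hS, hc⟩ := exists_min D
  rw [← hc, Finset.card_pos]
  obtain ⟨v⟩ := ‹Nonempty V›
  by_cases hv : v ∈ S
  · exact ⟨v, hv⟩
  · obtain ⟨u, hu, -⟩ := hS v hv
    exact ⟨u, hu⟩

open Classical in
lemma ncard_eq (P : V → Prop) : {u | P u}.ncard = (Finset.univ.filter P).card := by
  rw [← Set.ncard_coe_finset]; congr 1; ext; simp

open Classical in
lemma card_le_dom (D : Digraph V) (r : ℕ) (h : ∀ v, {u | D.Adj v u}.ncard = r) :
    Fintype.card V ≤ domNum D * (r + 1) := by
  obtain ⟨S, hS, hc⟩ := exists_min D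
  have h1 : (Finset.univ : Finset V) ⊆
      S.biUnion (fun u => insert u (Finset.univ.filter (fun v => D.Adj u v))) := by
    intro v _
    by_cases hv : v ∈ S
    · exact Finset.mem_biUnion.2 ⟨v, hv, Finset.mem_insert_self _ _⟩
    · obtain ⟨u, hu, huv⟩ := hS v hv
      exact Finset.mem_biUnion.2 ⟨u, hu, Finset.mem_insert_of_mem (by simpa using huv)⟩
  have h2 := (Finset.card_le_card h1).trans Finset.card_biUnion_le
  rw [Finset.card_univ] at h2
  refine h2.trans ?_
  rw [← hc, ← smul_eq_mul]
  apply Finset.sum_le_card_nsmul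
  intro u _
  refine (Finset.card_insert_le _ _).trans ?_
  rw [← ncard_eq, h u]

open Classical in
lemma greedy_step [Nonempty V] (D : Digraph V) (r : ℕ) (hl : ∀ v, ¬ D.Adj v v)
    (h : ∀ v, {u | D.Adj u v}.ncard = r) (U : Finset V) :
    ∃ u, ((U.filter (fun v => ¬ (u = v ∨ D.Adj u v))).card : ℝ)
      ≤ U.card * Real.exp (-((r + 1) / Fintype.card V)) := by
  have hn : (0 : ℝ) < Fintype.card V := by exact_mod_cast Fintype.card_pos
  have h1 : ∑ u : V, (U.filter (fun v => u = v ∨ D.Adj u v)).card = U.card * (r + 1) := by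
    simp only [Finset.card_filter]
    rw [Finset.sum_comm, ← smul_eq_mul, ← Finset.sum_const]
    apply Finset.sum_congr rfl
    intro v _
    rw [← Finset.card_filter]
    have : Finset.univ.filter (fun u => u = v ∨ D.Adj u v) =
        insert v (Finset.univ.filter (fun u => D.Adj u v)) := by
      ext u; simp
    rw [this, Finset.card_insert_of_notMem (by simpa using hl v), ← ncard_eq, h v]
  obtain ⟨u, -, hu⟩ := Finset.exists_le_of_sum_le (s := (Finset.univ : Finset V))
    Finset.univ_nonempty (f := fun _ => (U.card : ℝ) * (r + 1) / Fintype.card V)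
    (g := fun u => ((U.filter (fun v => u = v ∨ D.Adj u v)).card : ℝ)) (by
      rw [← Nat.cast_sum, h1]
      simp only [Finset.sum_const, Finset.card_univ, nsmul_eq_mul]
      push_cast
      rw [mul_div_cancel₀ _ hn.ne'])
  refine ⟨u, ?_⟩
  have h2 := Finset.card_filter_add_card_filter_not (s := U) (fun v => u = v ∨ D.Adj u v)
  have h3 : ((U.filter (fun v => u = v ∨ D.Adj u v)).card : ℝ) +
      (U.filter (fun v => ¬ (u = v ∨ D.Adj u v))).card = U.card := by exact_mod_cast h2
  have h4 := Real.add_one_le_exp (-((r + 1) / Fintype.card V : ℝ))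
  have h5 : (0 : ℝ) ≤ U.card := by positivity
  have h6 : (U.card : ℝ) * (r + 1) / Fintype.card V = U.card * ((r + 1) / Fintype.card V) := by ring
  nlinarith

open Classical in
lemma dom_upper [Nonempty V] (D : Digraph V) (r : ℕ) (hl : ∀ v, ¬ D.Adj v v)
    (h : ∀ v, {u | D.Adj u v}.ncard = r) :
    (domNum D : ℝ) ≤ Fintype.card V / (r + 1) * (Real.log (r + 1) + 1) + 1 := by
  have hn : (0 : ℝ) < Fintype.card V := by exact_mod_cast Fintype.card_pos
  have h1 : ∀ t : ℕ, ∃ S : Finset V, S.card ≤ t ∧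
      ((Finset.univ.filter (fun v => ∀ u ∈ S, ¬ (u = v ∨ D.Adj u v))).card : ℝ)
        ≤ Fintype.card V * Real.exp (-((r + 1) / Fintype.card V)) ^ t := by
    intro t
    induction t with
    | zero => exact ⟨∅, by simp, by simp⟩
    | succ t ih =>
      obtain ⟨S, hS, hS2⟩ := ih
      obtain ⟨u, hu⟩ := greedy_step D r hl h
        (Finset.univ.filter (fun v => ∀ u ∈ S, ¬ (u = v ∨ D.Adj u v)))
      refine ⟨insert u S, (Finset.card_insert_le _ _).trans (by omega), ?_⟩
      have : Finset.univ.filter (fun v => ∀ w ∈ insert u S, ¬ (w = v ∨ D.Adj w v)) =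
          (Finset.univ.filter (fun v => ∀ u ∈ S, ¬ (u = v ∨ D.Adj u v))).filter
            (fun v => ¬ (u = v ∨ D.Adj u v)) := by
        ext v
        simp only [Finset.mem_filter, Finset.mem_univ, true_and, Finset.forall_mem_insert]
        tauto
      rw [this, pow_succ, ← mul_assoc]
      exact hu.trans (mul_le_mul_of_nonneg_right hS2 (Real.exp_pos _).le)
  have hk : (0 : ℝ) < r + 1 := by positivity
  have hlog : 0 ≤ Real.log (r + 1) := Real.log_nonneg (by linarith [Nat.cast_nonneg (α := ℝ) r])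
  obtain ⟨S, hS, hS2⟩ := h1 ⌈Fintype.card V / (r + 1) * Real.log (r + 1)⌉₊
  set U := Finset.univ.filter (fun v => ∀ u ∈ S, ¬ (u = v ∨ D.Adj u v)) with hU
  have h2 : IsDominating D (S ∪ U) := by
    intro v hv
    rw [Finset.mem_union, not_or] at hv
    have := hv.2
    simp only [hU, Finset.mem_filter, Finset.mem_univ, true_and, not_forall, not_not] at this
    obtain ⟨u, hu, h3 | h3⟩ := this
    · exact absurd (h3 ▸ hu) hv.1
    · exact ⟨u, Finset.mem_union_left _ hu, h3⟩
  have h3 : (domNum D : ℝ) ≤ S.card + U.card := by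
    exact_mod_cast (domNum_le D _ h2).trans (Finset.card_union_le _ _)
  have h4 : (S.card : ℝ) ≤ Fintype.card V / (r + 1) * Real.log (r + 1) + 1 := by
    refine le_trans (Nat.cast_le.2 hS) (Nat.ceil_lt_add_one (by positivity)).le
  have h5 : (U.card : ℝ) ≤ Fintype.card V / (r + 1) := by
    refine hS2.trans ?_
    have h6 := Nat.le_ceil (Fintype.card V / (r + 1) * Real.log (r + 1) : ℝ)
    generalize ⌈Fintype.card V / (r + 1) * Real.log (r + 1)⌉₊ = t at h6
    rw [← Real.exp_nat_mul, div_eq_mul_inv (Fintype.card V : ℝ)]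
    apply mul_le_mul_of_nonneg_left _ hn.le
    rw [← Real.exp_log (inv_pos.2 hk), Real.log_inv]
    apply Real.exp_le_exp.2
    have h7 : (Fintype.card V / (r + 1) * Real.log (r + 1) : ℝ) * ((r + 1) / Fintype.card V)
        = Real.log (r + 1) := by field_simp
    have h8 := mul_le_mul_of_nonneg_right h6 (show (0 : ℝ) ≤ (r + 1) / Fintype.card V by positivity)
    linarith
  linarith

lemma ratio_upper [Nonempty V] (D : Digraph V) (r : ℕ) (h : InClass r D) :
    (domNum (reverse D) : ℝ) / (domNum D : ℝ) ≤ Real.log (r + 1) + 2 := by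
  have h1 := dom_upper (reverse D) r h.1 h.2.2.1
  have h2 : (Fintype.card V : ℝ) ≤ domNum D * (r + 1) := by exact_mod_cast card_le_dom D r h.2.2.1
  have h3 : (1 : ℝ) ≤ domNum D := by exact_mod_cast domNum_pos D
  have hk : (0 : ℝ) < r + 1 := by positivity
  have hlog : 0 ≤ Real.log (r + 1) := Real.log_nonneg (by linarith [Nat.cast_nonneg (α := ℝ) r])
  have h4 : (Fintype.card V : ℝ) / (r + 1) ≤ domNum D := by rw [div_le_iff₀ hk]; exact h2
  rw [div_le_iff₀ (by linarith)]
  have h5 := mul_le_mul_of_nonneg_right h4 (show 0 ≤ Real.log (r + 1) + 1 by linarith)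
  linarith

open Classical in
lemma closed_in (D : Digraph V) (r : ℕ) (h1 : ∀ v, {u | D.Adj u v}.ncard = r)
    (h2 : ∀ v, {u | D.Adj v u}.ncard = r) (R : V → Prop) (hR : ∀ u v, R u → D.Adj u v → R v) :
    ∀ u v, R v → D.Adj u v → R u := by
  let S := Finset.univ.filter R
  have e1 : ∑ u ∈ S, (S.filter (fun v => D.Adj u v)).card = S.card * r := by
    rw [← smul_eq_mul, ← Finset.sum_const]
    apply Finset.sum_congr rfl
    intro u hu
    rw [← h2 u, ncard_eq]
    congr 1
    ext v
    simp only [S, Finset.mem_filter, Finset.mem_univ, true_and] at hu ⊢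
    exact ⟨fun h => h.2, fun h => ⟨hR u v hu h, h⟩⟩
  have e2 : ∑ v ∈ S, (S.filter (fun u => D.Adj u v)).card = ∑ _v ∈ S, r := by
    rw [Finset.sum_const, smul_eq_mul, ← e1]
    simp only [Finset.card_filter]
    exact Finset.sum_comm
  have e3 : ∀ v ∈ S, (S.filter (fun u => D.Adj u v)).card ≤ r := by
    intro v _
    rw [← h1 v, ncard_eq]
    exact Finset.card_le_card (Finset.filter_subset_filter _ (Finset.subset_univ _))
  have e4 := (Finset.sum_eq_sum_iff_of_le e3).1 e2
  intro u v hv huv
  have e5 := e4 v (by simpa [S] using hv)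
  have e6 : S.filter (fun u => D.Adj u v) = Finset.univ.filter (fun u => D.Adj u v) := by
    apply Finset.eq_of_subset_of_card_le (Finset.filter_subset_filter _ (Finset.subset_univ _))
    rw [e5, ← h1 v, ncard_eq]
  have : u ∈ S.filter (fun u => D.Adj u v) := by rw [e6]; simpa using huv
  simpa [S] using (Finset.mem_filter.1 this).1

end Pool.Agent.H11.Rho
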