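import Mathlib
import Pool.Agent.H11.Rho.Defs
import Pool.Agent.H11.Rho.Upper

namespace Pool.Agent.H11.Rho

open Finset Filter Topology

section perm
variable {α : Type} [Fintype α] [DecidableEq α]

/-- Permutations mapping `T` outside `B`. -/
def avoid (B T : Finset α) : Finset (Equiv.Perm α) :=
  Finset.univ.filter (fun σ => ∀ x ∈ T, σ x ∉ B)

lemma avoid_step (B T : Finset α) (x : α) (hx : x ∉ T) :
    (Fintype.card α - T.card) * ((avoid B T).filter (fun σ => σ x ∈ B)).card
      ≤ B.card * (avoid B T).card := by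
  have h1 : ∀ y ∈ Tᶜ, ((avoid B T).filter (fun σ => σ x ∈ B)).card ≤
      ((avoid B T).filter (fun σ => σ y ∈ B)).card := by
    intro y hy
    rw [Finset.mem_compl] at hy
    apply Finset.card_le_card_of_injOn (fun σ => σ * Equiv.swap x y)
    · intro σ hσ
      simp only [avoid, Finset.coe_filter, Finset.mem_filter, Finset.mem_univ, true_and,
        Set.mem_ofPred_eq, Equiv.Perm.coe_mul, Function.comp_apply, Equiv.swap_apply_right] at hσ ⊢
      refine ⟨fun z hz => ?_, hσ.2⟩
      rw [Equiv.swap_apply_of_ne_of_ne (a := x) (b := y) (x := z) (fun h => hx (h ▸ hz))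
        (fun h => hy (h ▸ hz))]
      exact hσ.1 z hz
    · intro σ _ τ _ h
      exact mul_right_cancel h
  have h2 := Finset.card_nsmul_le_sum _ _ _ h1
  rw [Finset.card_compl, smul_eq_mul] at h2
  refine h2.trans ?_
  simp only [Finset.card_filter]
  rw [Finset.sum_comm, mul_comm, ← smul_eq_mul]
  apply Finset.sum_le_card_nsmul
  intro σ _
  rw [← Finset.card_filter]
  apply Finset.card_le_card_of_injOn σ
  · intro y hy
    exact (Finset.mem_filter.1 hy).2
  · exact σ.injective.injOn

lemma avoid_card (B : Finset α) (t : ℕ) (ht : B.card + t ≤ Fintype.card α) (ht2 : t < Fintype.card α)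
    (T : Finset α) : T.card ≤ t →
    (Fintype.card (Equiv.Perm α) : ℝ) * (1 - B.card / (Fintype.card α - t)) ^ T.card
      ≤ (avoid B T).card := by
  have hN : (0 : ℝ) < Fintype.card α - t := by
    have : (t : ℝ) < Fintype.card α := by exact_mod_cast ht2
    linarith
  have hq : (0 : ℝ) ≤ 1 - B.card / (Fintype.card α - t) := by
    rw [sub_nonneg, div_le_one hN]
    have : (B.card : ℝ) + t ≤ Fintype.card α := by exact_mod_cast ht
    linarith
  induction T using Finset.induction_on with
  | empty => intro _; simp [avoid]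
  | insert x T hx ih =>
    intro hc
    rw [Finset.card_insert_of_notMem hx] at hc ⊢
    have h1 := ih (by omega)
    have h2 := avoid_step B T x hx
    have h3 : avoid B (insert x T) = (avoid B T).filter (fun σ => ¬ σ x ∈ B) := by
      ext σ; simp [avoid, and_comm]
    have h4 := Finset.card_filter_add_card_filter_not (s := avoid B T) (fun σ => σ x ∈ B)
    rw [← h3] at h4
    have h5 : (((avoid B T).filter (fun σ => σ x ∈ B)).card : ℝ) + (avoid B (insert x T)).card
        = (avoid B T).card := by exact_mod_cast h4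
    have h6 : ((Fintype.card α : ℝ) - t) * ((avoid B T).filter (fun σ => σ x ∈ B)).card
        ≤ B.card * (avoid B T).card := by
      have h7 : (Fintype.card α - t) * ((avoid B T).filter (fun σ => σ x ∈ B)).card
          ≤ B.card * (avoid B T).card :=
        le_trans (Nat.mul_le_mul_right _ (by omega)) h2
      have h8 : ((Fintype.card α - t : ℕ) : ℝ) = Fintype.card α - t := Nat.cast_sub ht2.le
      rw [← h8]; exact_mod_cast h7
    have h9 : (((avoid B T).filter (fun σ => σ x ∈ B)).card : ℝ)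
        ≤ B.card / (Fintype.card α - t) * (avoid B T).card := by
      rw [div_mul_eq_mul_div, le_div_iff₀ hN]; linarith
    rw [pow_succ, ← mul_assoc]
    have h10 := mul_le_mul_of_nonneg_right h1 hq
    linarith

end perm

/-- The digraph built from one permutation for each column. -/
def dg {s r : ℕ} (π : Fin (r + 1) → Equiv.Perm (ZMod s × Fin r)) :
    Digraph (ZMod s × Fin (r + 1)) :=
  ⟨fun u v => ∃ y : Fin r, u.2.succAbove y = v.2 ∧ (π u.2 (v.1, y)).1 = u.1⟩

lemma dg_out {s r : ℕ} [NeZero s] (π : Fin (r + 1) → Equiv.Perm (ZMod s × Fin r))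
    (u : ZMod s × Fin (r + 1)) : {v | (dg π).Adj u v}.ncard = r := by
  have : {v | (dg π).Adj u v} = Set.range (fun z : Fin r =>
      ((((π u.2).symm (u.1, z)).1, u.2.succAbove ((π u.2).symm (u.1, z)).2) :
        ZMod s × Fin (r + 1))) := by
    ext v
    simp only [dg, Set.mem_ofPred_eq, Set.mem_range]
    constructor
    · rintro ⟨y, hy, hy2⟩
      refine ⟨(π u.2 (v.1, y)).2, ?_⟩
      rw [← hy2]
      simp [hy]
    · rintro ⟨z, rfl⟩
      exact ⟨_, rfl, by simp⟩
  rw [this, Set.ncard_range_of_injective]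
  · simp
  · intro z z' h
    simp only [Prod.mk.injEq, Fin.succAbove_right_inj] at h
    have := (π u.2).symm.injective (Prod.ext h.1 h.2)
    exact (Prod.ext_iff.1 this).2

lemma dg_in {s r : ℕ} [NeZero s] (π : Fin (r + 1) → Equiv.Perm (ZMod s × Fin r))
    (v : ZMod s × Fin (r + 1)) : {u | (dg π).Adj u v}.ncard = r := by
  have h0 : ∀ z : Fin r, ∃ y : Fin r, (v.2.succAbove z).succAbove y = v.2 := fun z =>
    Fin.exists_succAbove_eq (Fin.succAbove_ne v.2 z).symm
  choose f hf using h0
  have : {u | (dg π).Adj u v} = Set.range (fun z : Fin r =>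
      (((π (v.2.succAbove z) (v.1, f z)).1, v.2.succAbove z) : ZMod s × Fin (r + 1))) := by
    ext u
    simp only [dg, Set.mem_ofPred_eq, Set.mem_range]
    constructor
    · rintro ⟨y, hy, hy2⟩
      obtain ⟨z, hz⟩ := Fin.exists_succAbove_eq (x := u.2) (y := v.2)
        (by rw [← hy]; exact (Fin.succAbove_ne _ _).symm)
      refine ⟨z, ?_⟩
      have : f z = y := by
        have h1 := hf z
        rw [hz, ← hy] at h1
        exact Fin.succAbove_right_injective h1
      rw [this, hz, hy2]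
    · rintro ⟨z, rfl⟩
      exact ⟨f z, hf z, rfl⟩
  rw [this, Set.ncard_range_of_injective]
  · simp
  · intro z z' h
    simp only [Prod.mk.injEq, Fin.succAbove_right_inj] at h
    exact h.2

lemma dg_class {s r : ℕ} [NeZero s] (π : Fin (r + 2) → Equiv.Perm (ZMod s × Fin (r + 1)))
    (h0 : ∀ x, (π 0 x).1 = x.1) (h1 : ∀ x, (π 1 x).1 = x.1 - 1) : InClass (r + 1) (dg π) := by
  refine ⟨?_, dg_in π, dg_out π, ?_⟩
  · rintro v ⟨y, hy, -⟩
    exact Fin.succAbove_ne _ _ hy
  · intro u
    have hout : ∀ a b, Relation.ReflTransGen (dg π).Adj u a → (dg π).Adj a b →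
        Relation.ReflTransGen (dg π).Adj u b := fun a b h h' => h.tail h'
    have hin := closed_in (dg π) (r + 1) (dg_in π) (dg_out π) _ hout
    have a0 : ∀ (j : ZMod s) (x : Fin (r + 2)), x ≠ 0 → (dg π).Adj (j, 0) (j, x) := by
      intro j x hx
      obtain ⟨y, hy⟩ := Fin.exists_succAbove_eq hx
      exact ⟨y, hy, h0 _⟩
    have a1 : ∀ (j : ZMod s), (dg π).Adj (j, 1) (j + 1, 0) := by
      intro j
      obtain ⟨y, hy⟩ := Fin.exists_succAbove_eq (x := (0 : Fin (r + 2))) (y := 1) (by simp)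
      exact ⟨y, hy, by rw [h1]; simp⟩
    have b0 : Relation.ReflTransGen (dg π).Adj u (u.1, 0) := by
      by_cases h : u.2 = 0
      · rw [← h]
      · exact hin _ u Relation.ReflTransGen.refl (a0 u.1 u.2 h)
    have b1 : ∀ m : ℕ, Relation.ReflTransGen (dg π).Adj u (u.1 + m, 0) := by
      intro m
      induction m with
      | zero => simpa using b0
      | succ m ih =>
        push_cast
        rw [← add_assoc]
        exact (ih.tail (a0 _ 1 (by simp))).tail (a1 _)
    intro v
    have b2 := b1 (v.1 - u.1).val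
    rw [ZMod.natCast_zmod_val, add_sub_cancel] at b2
    by_cases h : v.2 = 0
    · rw [← h] at b2; exact b2
    · exact b2.tail (a0 v.1 v.2 h)

lemma dg_dom {s r : ℕ} [NeZero s] (π : Fin (r + 1) → Equiv.Perm (ZMod s × Fin r)) :
    domNum (dg π) ≤ s := by
  classical
  have := domNum_le (dg π) (Finset.univ.image (fun j : ZMod s => (j, (0 : Fin (r + 1))))) (by
    intro v hv
    have h : v.2 ≠ 0 := by
      intro h; apply hv
      exact Finset.mem_image.2 ⟨v.1, Finset.mem_univ _, Prod.ext rfl h.symm⟩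
    obtain ⟨y, hy⟩ := Fin.exists_succAbove_eq h
    exact ⟨((π 0 (v.1, y)).1, 0), Finset.mem_image_of_mem _ (Finset.mem_univ _), y, hy, rfl⟩)
  refine this.trans (Finset.card_image_le.trans ?_)
  simp

lemma exists_good {s r t : ℕ} [NeZero s] (p : ℝ) (hp : 0 ≤ p) (hp1 : p ≤ 1)
    (ht : r + t ≤ s * r) (ht2 : t < s * r) (hpq : p ≤ (1 - (r : ℝ) / (s * r - t)) ^ t)
    (hmain : ((s : ℝ) * (r + 1)) ^ t * (1 - p) ^ (r - (t + 1)) < 1) :
    ∃ π : Fin (r + 1) → Equiv.Perm (ZMod s × Fin r), ∀ T : Fin t → ZMod s × Fin (r + 1),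
      ∃ i : Fin (r + 1), 2 ≤ (i : ℕ) ∧ (∀ m, T m ≠ (0, i)) ∧
        ∀ m y, i.succAbove y = (T m).2 → (π i ((T m).1, y)).1 ≠ 0 := by
  classical
  let B : Finset (ZMod s × Fin r) := Finset.univ.filter (fun x => x.1 = 0)
  have hB : B.card = r := by
    have : B = Finset.univ.image (fun y : Fin r => ((0 : ZMod s), y)) := by
      ext ⟨a, y⟩; simp [B, eq_comm]
    rw [this, Finset.card_image_of_injective _ (fun y y' h => (Prod.ext_iff.1 h).2)]; simp
  have hα : Fintype.card (ZMod s × Fin r) = s * r := by simp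
  let T' : (Fin t → ZMod s × Fin (r + 1)) → Fin (r + 1) → Finset (ZMod s × Fin r) := fun T i =>
    Finset.univ.filter (fun x => ∃ m, T m = (x.1, i.succAbove x.2))
  have hT' : ∀ T i, (T' T i).card ≤ t := by
    intro T i
    have : (T' T i).card ≤ (Finset.univ.image T).card := by
      apply Finset.card_le_card_of_injOn (fun x => (x.1, i.succAbove x.2))
      · intro x hx
        obtain ⟨m, hm⟩ := (Finset.mem_filter.1 hx).2
        exact Finset.mem_coe.2 (Finset.mem_image.2 ⟨m, Finset.mem_univ _, hm⟩)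
      · intro x _ x' _ h
        simp only [Prod.mk.injEq, Fin.succAbove_right_inj] at h
        exact Prod.ext h.1 h.2
    exact this.trans (Finset.card_image_le.trans (by simp))
  let G : (Fin t → ZMod s × Fin (r + 1)) → Finset (Fin (r + 1)) := fun T =>
    Finset.univ.filter (fun i => 2 ≤ (i : ℕ) ∧ ∀ m, T m ≠ (0, i))
  have hG : ∀ T, r - (t + 1) ≤ (G T).card := by
    intro T
    have h1 : (G T)ᶜ ⊆ (Finset.univ.image (fun m => (T m).2)) ∪
        Finset.univ.filter (fun i : Fin (r + 1) => (i : ℕ) < 2) := by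
      intro i hi
      simp only [G, Finset.mem_compl, Finset.mem_filter, Finset.mem_univ, true_and, not_and,
        not_forall, not_not, Finset.mem_union, Finset.mem_image] at hi ⊢
      by_cases h2 : 2 ≤ (i : ℕ)
      · obtain ⟨m, hm⟩ := hi h2
        exact Or.inl ⟨m, by rw [hm]⟩
      · exact Or.inr (by omega)
    have h2 := (Finset.card_le_card h1).trans (Finset.card_union_le _ _)
    have h3 : (Finset.univ.image (fun m => (T m).2)).card ≤ t := Finset.card_image_le.trans (by simp)
    have h4 : (Finset.univ.filter (fun i : Fin (r + 1) => (i : ℕ) < 2)).card ≤ 2 := by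
      have : (Finset.univ.filter (fun i : Fin (r + 1) => (i : ℕ) < 2)).card ≤ (Finset.range 2).card := by
        apply Finset.card_le_card_of_injOn (fun i : Fin (r + 1) => (i : ℕ))
        · intro i hi; simpa using hi
        · intro i _ j _ h; exact Fin.ext h
      simpa using this
    rw [Finset.card_compl, Fintype.card_fin] at h2
    omega
  set M : ℝ := ((Fintype.card (Equiv.Perm (ZMod s × Fin r)) : ℕ) : ℝ) with hM
  have hM0 : 0 < M := by rw [hM]; exact_mod_cast Fintype.card_pos
  let bad : (Fin t → ZMod s × Fin (r + 1)) → Finset (Fin (r + 1) → Equiv.Perm (ZMod s × Fin r)) :=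
    fun T => Fintype.piFinset (fun i => if i ∈ G T then (avoid B (T' T i))ᶜ else Finset.univ)
  have hbad : ∀ T, ((bad T).card : ℝ) ≤ M ^ (r + 1) * (1 - p) ^ (r - (t + 1)) := by
    intro T
    simp only [bad, Fintype.card_piFinset]
    push_cast
    have h1 : ∀ i, (((if i ∈ G T then (avoid B (T' T i))ᶜ else Finset.univ).card : ℕ) : ℝ)
        ≤ M * (if i ∈ G T then (1 - p) else 1) := by
      intro i
      split_ifs
      · have h2 := avoid_card B t (by rw [hB, hα]; exact ht) (by rw [hα]; exact ht2) _ (hT' T i)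
        rw [hB, hα, ← hM] at h2
        push_cast at h2
        have h3 : (0 : ℝ) < s * r - t := by
          have : (t : ℝ) < s * r := by exact_mod_cast ht2
          linarith
        have h4 : (0 : ℝ) ≤ 1 - (r : ℝ) / (s * r - t) := by
          rw [sub_nonneg, div_le_one h3]
          have : (r : ℝ) + t ≤ s * r := by exact_mod_cast ht
          linarith
        have h5 : (1 - (r : ℝ) / (s * r - t)) ^ t ≤ (1 - (r : ℝ) / (s * r - t)) ^ (T' T i).card :=
          pow_le_pow_of_le_one h4 (by
            have : (0 : ℝ) ≤ (r : ℝ) / (s * r - t) := by positivity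
            linarith) (hT' T i)
        rw [Finset.card_compl, Nat.cast_sub (Finset.card_le_univ _), ← hM]
        have h6 := mul_le_mul_of_nonneg_left (hpq.trans h5) hM0.le
        linarith
      · simp [hM]
    refine (Finset.prod_le_prod (fun i _ => by positivity) (fun i _ => h1 i)).trans ?_
    rw [Finset.prod_mul_distrib, Finset.prod_ite_mem, Finset.univ_inter]
    simp only [Finset.prod_const, Finset.card_univ, Fintype.card_fin]
    apply mul_le_mul_of_nonneg_left _ (by positivity)
    exact pow_le_pow_of_le_one (by linarith) (by linarith) (hG T)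
  by_contra hcon
  push Not at hcon
  have hcov : (Finset.univ : Finset (Fin (r + 1) → Equiv.Perm (ZMod s × Fin r))) ⊆
      Finset.univ.biUnion bad := by
    intro π _
    obtain ⟨T, hT⟩ := hcon π
    refine Finset.mem_biUnion.2 ⟨T, Finset.mem_univ _, ?_⟩
    simp only [bad, Fintype.mem_piFinset]
    intro i
    split_ifs with hi
    · have hi' := (Finset.mem_filter.1 hi).2
      obtain ⟨m, y, hy, hy2⟩ := hT i hi'.1 hi'.2
      simp only [avoid, Finset.mem_compl, Finset.mem_filter, Finset.mem_univ, true_and, not_forall,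
        not_not]
      refine ⟨((T m).1, y), ?_, ?_⟩
      · exact Finset.mem_filter.2 ⟨Finset.mem_univ _, m, Prod.ext rfl hy.symm⟩
      · exact Finset.mem_filter.2 ⟨Finset.mem_univ _, hy2⟩
    · exact Finset.mem_univ _
  have h1 := (Finset.card_le_card hcov).trans Finset.card_biUnion_le
  have h2 : ((Finset.univ : Finset (Fin (r + 1) → Equiv.Perm (ZMod s × Fin r))).card : ℝ)
      = M ^ (r + 1) := by
    rw [Finset.card_univ, Fintype.card_fun, hM]; simp
  have h3 : M ^ (r + 1) ≤ ∑ T, ((bad T).card : ℝ) := by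
    rw [← h2]; exact_mod_cast h1
  have h4 := h3.trans (Finset.sum_le_card_nsmul _ _ _ (fun T _ => hbad T))
  simp only [Finset.card_univ, Fintype.card_fun, Fintype.card_prod, ZMod.card, Fintype.card_fin,
    nsmul_eq_mul] at h4
  push_cast at h4
  have h5 : 0 < M ^ (r + 1) := by positivity
  nlinarith

lemma exists_digraph {s r t : ℕ} [NeZero s] (p : ℝ) (hp : 0 ≤ p) (hp1 : p ≤ 1) (hr : 1 ≤ r)
    (ht : r + t ≤ s * r) (ht2 : t < s * r) (hpq : p ≤ (1 - (r : ℝ) / (s * r - t)) ^ t)
    (hmain : ((s : ℝ) * (r + 1)) ^ t * (1 - p) ^ (r - (t + 1)) < 1) :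
    ((t : ℝ) + 1) / s ≤ rho r := by
  classical
  obtain ⟨π, hπ⟩ := exists_good p hp hp1 ht ht2 hpq hmain
  obtain ⟨r, rfl⟩ : ∃ r', r = r' + 1 := ⟨r - 1, by omega⟩
  let π' : Fin (r + 2) → Equiv.Perm (ZMod s × Fin (r + 1)) := fun i =>
    if i = 0 then 1 else if i = 1 then Equiv.prodCongr (Equiv.subRight 1) (Equiv.refl _) else π i
  have hcl : InClass (r + 1) (dg π') := dg_class π' (by simp [π']) (by simp [π'])
  have h1 : t < domNum (reverse (dg π')) := by
    by_contra hcon
    obtain ⟨S, hS, hc⟩ := exists_min (reverse (dg π'))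
    obtain ⟨e⟩ : Nonempty (S ↪ Fin t) :=
      Function.Embedding.nonempty_of_card_le (by simp; omega)
    let T : Fin t → ZMod s × Fin (r + 2) := fun m =>
      if h : ∃ x, e x = m then (h.choose : ZMod s × Fin (r + 2)) else (0, 0)
    have hT : ∀ x ∈ S, ∃ m, T m = x := by
      intro x hx
      have h : ∃ y, e y = e ⟨x, hx⟩ := ⟨_, rfl⟩
      refine ⟨e ⟨x, hx⟩, ?_⟩
      simp only [T, dif_pos h]
      rw [e.injective h.choose_spec]
    obtain ⟨i, hi, hi2, hi3⟩ := hπ T
    have h0 : ((0 : ZMod s), i) ∉ S := by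
      intro h
      obtain ⟨m, hm⟩ := hT _ h
      exact hi2 m hm
    obtain ⟨u, hu, y, hy, hy2⟩ := hS _ h0
    obtain ⟨m, rfl⟩ := hT u hu
    apply hi3 m y hy
    have e1 : i ≠ 0 := by rintro rfl; simp at hi
    have e2 : i ≠ 1 := by rintro rfl; simp at hi
    simpa [π', e1, e2] using hy2
  have h2 := dg_dom π'
  have h3 := domNum_pos (dg π')
  have h4 : ((t : ℝ) + 1) / s ≤ (domNum (reverse (dg π')) : ℝ) / domNum (dg π') := by
    apply div_le_div₀ (by positivity) (by exact_mod_cast h1) (by exact_mod_cast h3)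
      (by exact_mod_cast h2)
  refine h4.trans (le_csSup ⟨Real.log ((r + 1 : ℕ) + 1) + 2, ?_⟩
    ⟨_, inferInstance, inferInstance, dg π', hcl, rfl⟩)
  rintro x ⟨V, _, _, D, hD, rfl⟩
  exact ratio_upper D _ hD

lemma rho_le (r : ℕ) : rho r ≤ Real.log (r + 1) + 2 := by
  have hlog : 0 ≤ Real.log (r + 1) := Real.log_nonneg (by linarith [Nat.cast_nonneg (α := ℝ) r])
  apply Real.sSup_le _ (by linarith)
  rintro x ⟨V, _, _, D, hD, rfl⟩
  exact ratio_upper D _ hD

lemma ev_rpow (C δ : ℝ) (hδ : 0 < δ) : ∀ᶠ r : ℕ in atTop, C * Real.log r ^ 2 < (r : ℝ) ^ δ := by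
  have h1 : Tendsto (fun r : ℕ => (r : ℝ) ^ (δ / 2)) atTop atTop :=
    (tendsto_rpow_atTop (by positivity)).comp tendsto_natCast_atTop_atTop
  filter_upwards [h1.eventually_gt_atTop (|C| * (16 / δ ^ 2)), eventually_ge_atTop 1] with r hr hr1
  have hr0 : (0 : ℝ) < r := by exact_mod_cast hr1
  have h2 := Real.log_le_rpow_div (x := (r : ℝ)) (ε := δ / 4) hr0.le (by positivity)
  have h3 : 0 ≤ Real.log r := Real.log_natCast_nonneg r
  have h4 : Real.log r ^ 2 ≤ 16 / δ ^ 2 * (r : ℝ) ^ (δ / 2) := by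
    refine (pow_le_pow_left₀ h3 h2 2).trans (le_of_eq ?_)
    rw [div_pow, ← Real.rpow_natCast, ← Real.rpow_mul hr0.le]
    have : δ / 4 * ((2 : ℕ) : ℝ) = δ / 2 := by push_cast; ring
    rw [this]; field_simp; norm_num
  have h5 : (r : ℝ) ^ δ = (r : ℝ) ^ (δ / 2) * (r : ℝ) ^ (δ / 2) := by
    rw [← Real.rpow_add hr0]; congr 1; ring
  have h6 : 0 < (r : ℝ) ^ (δ / 2) := by positivity
  calc C * Real.log r ^ 2 ≤ |C| * Real.log r ^ 2 :=
        mul_le_mul_of_nonneg_right (le_abs_self C) (by positivity)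
    _ ≤ |C| * (16 / δ ^ 2 * (r : ℝ) ^ (δ / 2)) := mul_le_mul_of_nonneg_left h4 (abs_nonneg C)
    _ = |C| * (16 / δ ^ 2) * (r : ℝ) ^ (δ / 2) := by ring
    _ < _ := by rw [h5]; exact mul_lt_mul_of_pos_right hr h6

lemma ev_lower (s : ℕ) (hs : 4 ≤ s) :
    ∀ᶠ r : ℕ in atTop, ((s : ℝ) - 3) / s * Real.log r ≤ rho r := by
  have : NeZero s := ⟨by omega⟩
  have hs' : (4 : ℝ) ≤ s := by exact_mod_cast hs
  filter_upwards [ev_rpow (4 * s) (1 / (s - 2)) (by apply one_div_pos.2; linarith),
    ev_rpow (4 * s) 1 one_pos, eventually_ge_atTop (s + 1)] with r h1 h2 h3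
  rw [Real.rpow_one] at h2
  have hr' : (s : ℝ) + 1 ≤ r := by exact_mod_cast h3
  have hr0 : (0 : ℝ) < r := by linarith
  set L := Real.log r with hL
  have hL1 : 1 ≤ L := by
    rw [hL, Real.le_log_iff_exp_le hr0]
    have := Real.exp_one_lt_d9; linarith
  set t := ⌊((s : ℝ) - 3) * L⌋₊ with ht
  have ht1 : (t : ℝ) ≤ (s - 3) * L := Nat.floor_le (by nlinarith)
  have ht2 : (s - 3) * L < t + 1 := Nat.lt_floor_add_one _
  have ht3 : 2 * ((t : ℝ) + 1) ≤ r := by nlinarith
  have ht4 : 2 * (t + 1) ≤ r := by exact_mod_cast ht3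
  have ht0 : (0 : ℝ) ≤ t := by positivity
  have h4 : 4 * r ≤ s * r := Nat.mul_le_mul_right r hs
  refine le_trans ?_ (exists_digraph (s := s) (r := r) (t := t) (Real.exp (-(t / (s - 2))))
    (Real.exp_pos _).le ?_ (by omega) (by omega) (by omega) ?_ ?_)
  · rw [div_mul_eq_mul_div]
    exact div_le_div_of_nonneg_right ht2.le (by linarith)
  · rw [Real.exp_le_one_iff, neg_nonpos]
    exact div_nonneg ht0 (by linarith)
  · have e : Real.exp (-(t / (s - 2))) = Real.exp (-(1 / (s - 2))) ^ t := by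
      rw [← Real.exp_nat_mul]; congr 1; ring
    rw [e]
    apply pow_le_pow_left₀ (Real.exp_pos _).le
    have h5 : (r : ℝ) / (s * r - t) ≤ 1 / (s - 1) := by
      rw [div_le_div_iff₀ (by nlinarith) (by linarith)]; nlinarith
    have h6 : Real.exp (-(1 / ((s : ℝ) - 2))) ≤ 1 - 1 / (s - 1) := by
      rw [Real.exp_neg, inv_le_comm₀ (Real.exp_pos _) (by
        rw [sub_pos, div_lt_one (by linarith)]; linarith)]
      refine le_trans (le_of_eq ?_) (Real.add_one_le_exp _)
      have a1 : (s : ℝ) - 1 ≠ 0 := by linarith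
      have a2 : (s : ℝ) - 2 ≠ 0 := by linarith
      have a3 : (1 : ℝ) - 1 / (s - 1) = (s - 2) / (s - 1) := by field_simp; ring
      rw [a3, inv_div]; field_simp; ring
    linarith
  · set p := Real.exp (-(t / ((s : ℝ) - 2))) with hp
    have hp0 : 0 < p := Real.exp_pos _
    have hp1 : p ≤ 1 := by
      rw [hp, Real.exp_le_one_iff, neg_nonpos]
      exact div_nonneg ht0 (by linarith)
    have a1 : (1 - p) ^ (r - (t + 1)) ≤ Real.exp (-(p * (r / 2))) := by
      have b1 : 1 - p ≤ Real.exp (-p) := by have := Real.add_one_le_exp (-p); linarith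
      refine (pow_le_pow_left₀ (by linarith) b1 _).trans ?_
      rw [← Real.exp_nat_mul]
      apply Real.exp_le_exp.2
      rw [Nat.cast_sub (by omega)]
      push_cast
      nlinarith
    have a2 : ((s : ℝ) * (r + 1)) ^ t ≤ Real.exp (2 * s * L ^ 2) := by
      have b1 : (s : ℝ) * (r + 1) ≤ Real.exp (2 * L) := by
        rw [show 2 * L = ((2 : ℕ) : ℝ) * L by norm_num, Real.exp_nat_mul, hL, Real.exp_log hr0]
        nlinarith
      refine (pow_le_pow_left₀ (by positivity) b1 _).trans ?_
      rw [← Real.exp_nat_mul]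
      apply Real.exp_le_exp.2
      nlinarith
    have a3 : (r : ℝ) ^ (1 / ((s : ℝ) - 2)) ≤ p * r := by
      rw [Real.rpow_def_of_pos hr0, ← hL]
      conv_rhs => rw [← Real.exp_log hr0, ← hL, hp, ← Real.exp_add]
      apply Real.exp_le_exp.2
      have b1 : (0 : ℝ) < s - 2 := by linarith
      have b2 : (t : ℝ) / (s - 2) ≤ (s - 3) * L / (s - 2) := div_le_div_of_nonneg_right ht1 b1.le
      have b3 : L * (1 / (s - 2)) + (s - 3) * L / (s - 2) = L := by field_simp; ring
      linarith
    calc ((s : ℝ) * (r + 1)) ^ t * (1 - p) ^ (r - (t + 1))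
        ≤ Real.exp (2 * s * L ^ 2) * Real.exp (-(p * (r / 2))) :=
          mul_le_mul a2 a1 (pow_nonneg (by linarith) _) (Real.exp_pos _).le
      _ = Real.exp (2 * s * L ^ 2 + -(p * (r / 2))) := by rw [Real.exp_add]
      _ < 1 := by rw [Real.exp_lt_one_iff]; linarith

theorem main : Tendsto (fun r : ℕ => rho r / Real.log r) atTop (𝓝 1) := by
  have hlog : Tendsto (fun r : ℕ => Real.log r) atTop atTop :=
    Real.tendsto_log_atTop.comp tendsto_natCast_atTop_atTop
  rw [tendsto_order]
  constructor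
  · intro a ha
    obtain ⟨s, hs⟩ := exists_nat_gt (max 4 (3 / (1 - a)))
    have hs1 : (4 : ℝ) < s := lt_of_le_of_lt (le_max_left _ _) hs
    have hs2 : 3 / (1 - a) < s := lt_of_le_of_lt (le_max_right _ _) hs
    have hs3 : 4 ≤ s := by exact_mod_cast hs1.le
    filter_upwards [ev_lower s hs3, hlog.eventually_gt_atTop 0] with r h1 h2
    rw [lt_div_iff₀ h2]
    refine lt_of_lt_of_le (mul_lt_mul_of_pos_right ?_ h2) h1
    rw [div_lt_iff₀ (by linarith)] at hs2
    rw [lt_div_iff₀ (by linarith)]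
    linarith
  · intro a ha
    filter_upwards [hlog.eventually_gt_atTop (3 / (a - 1)), eventually_ge_atTop 1] with r h1 h2
    have h3 : 0 < 3 / (a - 1) := by apply div_pos <;> linarith
    have hr : (1 : ℝ) ≤ r := by exact_mod_cast h2
    rw [div_lt_iff₀ (by linarith)]
    have h4 : Real.log (r + 1) ≤ Real.log r + 1 := by
      have h5 : Real.log (r + 1) ≤ Real.log (r * 2) := Real.log_le_log (by linarith) (by linarith)
      rw [Real.log_mul (by linarith) (by norm_num)] at h5
      have := Real.log_two_lt_d9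
      linarith
    have h5 := rho_le r
    rw [div_lt_iff₀ (by linarith)] at h1
    linarith

end Pool.Agent.H11.Rho
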